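import Pool.Agent.TH432.RP.Exact

/-!
# The optimal systolic ratio of the `O(k) × O(m)`-invariant metrics of `RP^{k+m-1}`

Let `k, m ≥ 2`, `d = k + m - 1`.  The lift to `S^d ⊂ ℝ^k × ℝ^m` of an `O(k) × O(m)`-invariant smooth
Riemannian metric of `RP^d` is `g = dr² + f(r)² g_{S^{k-1}} + h(r)² g_{S^{m-1}}`, `0 ≤ r ≤ L`
(`IsProfile2 L f h`); its volume on `RP^d` is `c ∫₀^L f^{k-1} h^{m-1} dr` with
`c = vol(S^{k-1}) vol(S^{m-1}) / 2`, and for the standard metric `g₀` one has `L = π/2`, `f = sin`,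
`h = cos`.  The systole of `g₀` is `π`, and the least value of the systolic ratio (divided by `c`) over all
these metrics is that of `g₀`, which is `π^{-d} ∫₀^{π/2} sin^{k-1} cos^{m-1} dt`.
-/

open Real Set MeasureTheory
open scoped ENNReal

namespace Pool.Agent.Results.MP_c3a607_gt.InvariantProjective

open Pool.Agent.TH432.RP
open Pool.Agent.H206R2.Rot2 (IsProfile2)

theorem result :
    ∀ (k m : ℕ), 2 ≤ k → 2 ≤ m →
      systole k m (π / 2) Real.sin Real.cos = ENNReal.ofReal π ∧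
      IsLeast {x : ℝ≥0∞ | ∃ (L : ℝ) (f h : ℝ → ℝ), IsProfile2 L f h ∧
          x = ENNReal.ofReal (∫ r in (0 : ℝ)..L, f r ^ (k - 1) * h r ^ (m - 1)) /
            systole k m L f h ^ (k + m - 1)}
        (ENNReal.ofReal (∫ t in (0 : ℝ)..π / 2, Real.sin t ^ (k - 1) * Real.cos t ^ (m - 1)) /
          ENNReal.ofReal π ^ (k + m - 1)) :=
  fun _ _ hk hm => ⟨systole_round hk hm, exact hk hm⟩

end Pool.Agent.Results.MP_c3a607_gt.InvariantProjective
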